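import Pool.Agent.H78.GX.H6.N4D.TC

/-!
# Rows CHI, CTN and STP of n4d
-/

set_option autoImplicit false

open Finset

namespace Pool.Agent.H78.GX.H91.N4D
open Pool.Agent.H6.N4D Pool.Agent.H78.GX.H6.N4D Pool.Agent.H78.GX

theorem pf_CHI : T_CHI := by
  intro S hS hL
  have hK : (0 : ℝ) < S.K := by exact_mod_cast hS.hK
  have hKL : 0 < (S.K : ℝ) * S.L := mul_pos hK hL
  have hh := hS.hh
  refine ⟨fun t => ⟨le_max_left _ _, max_le zero_le_one (min_le_left _ _)⟩, ?_, ?_, ?_⟩
  · intro t ht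
    rw [Par.mem_I, not_and_or, not_le, not_lt] at ht
    unfold chi
    apply max_eq_left
    rcases ht with ht | ht
    · have h0 : (t : ℝ) < S.a := by exact_mod_cast ht
      have h1 : ((t : ℝ) - S.a) * S.h / (S.K * S.L) ≤ 0 := by
        apply div_nonpos_of_nonpos_of_nonneg _ hKL.le
        nlinarith
      exact (min_le_right _ _).trans ((min_le_left _ _).trans h1)
    · have h0 : (S.b : ℝ) ≤ t := by exact_mod_cast ht
      have h1 : ((S.b : ℝ) - t) * S.h / (S.K * S.L) ≤ 0 := by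
        apply div_nonpos_of_nonpos_of_nonneg _ hKL.le
        nlinarith
      exact (min_le_right _ _).trans ((min_le_right _ _).trans h1)
  · intro t ht
    unfold In at ht
    rw [mem_filter] at ht
    obtain ⟨_, h1, h2⟩ := ht
    have h3 : 1 ≤ ((t : ℝ) - S.a) * S.h / (S.K * S.L) := by
      rw [le_div_iff₀ hKL]; linarith
    have h4 : 1 ≤ ((S.b : ℝ) - t) * S.h / (S.K * S.L) := by
      rw [le_div_iff₀ hKL]; linarith
    unfold chi
    rw [min_eq_left (le_min h3 h4)]
    exact max_eq_right zero_le_one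
  · intro t l
    have hA : |(((t + l : ℤ) : ℝ) - S.a) * S.h / (S.K * S.L) -
        ((t : ℝ) - S.a) * S.h / (S.K * S.L)| ≤ |(l : ℝ)| * S.h / (S.K * S.L) := by
      rw [← sub_div, abs_div, abs_of_pos hKL]
      have : (((t + l : ℤ) : ℝ) - S.a) * S.h - ((t : ℝ) - S.a) * S.h = l * S.h := by
        push_cast; ring
      rw [this, abs_mul, abs_of_pos hh]
    have hB : |((S.b : ℝ) - ((t + l : ℤ) : ℝ)) * S.h / (S.K * S.L) -
        ((S.b : ℝ) - t) * S.h / (S.K * S.L)| ≤ |(l : ℝ)| * S.h / (S.K * S.L) := by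
      rw [← sub_div, abs_div, abs_of_pos hKL]
      have : ((S.b : ℝ) - ((t + l : ℤ) : ℝ)) * S.h - ((S.b : ℝ) - t) * S.h = -(l * S.h) := by
        push_cast; ring
      rw [this, abs_neg, abs_mul, abs_of_pos hh]
    have h0 : 0 ≤ |(l : ℝ)| * S.h / (S.K * S.L) := by positivity
    unfold chi
    refine (abs_max_sub_max_le_max _ _ _ _).trans (max_le (by simpa using h0) ?_)
    refine (abs_min_sub_min_le_max _ _ _ _).trans (max_le (by simpa using h0) ?_)
    exact (abs_min_sub_min_le_max _ _ _ _).trans (max_le hA hB)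

open Classical in
theorem pf_CTN : T_CTN := by
  intro S E hS ha
  have hh := hS.hh
  have hX := hS.hX
  -- the indices
  have hna : 2 ≤ S.n S.a := by
    unfold Par.n
    exact Nat.le_floor (by exact_mod_cast ha)
  have hmaps : ∀ t ∈ S.fl (fun t => E (S.n t)), S.n t ∈ (Icc (S.n S.a) (S.n S.b)).filter E := by
    intro t ht
    rw [Par.mem_fl, Par.mem_I] at ht
    rw [mem_filter, mem_Icc]
    refine ⟨⟨?_, ?_⟩, ht.2⟩
    · exact Nat.floor_le_floor (Par.x_mono hh ht.1.1)
    · exact Nat.floor_le_floor (Par.x_mono hh ht.1.2.le)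
  have hfib : ∀ n ∈ (Icc (S.n S.a) (S.n S.b)).filter E,
      (((S.fl (fun t => E (S.n t))).filter (fun t => S.n t = n)).card : ℝ) ≤
        1 / S.h * (1 / (n : ℝ)) + 1 := by
    intro n hn
    rw [mem_filter, mem_Icc] at hn
    have hn1 : 1 ≤ n := by omega
    have hn0 : (0 : ℝ) < n := by exact_mod_cast hn1
    have hlog : Real.log (n + 1) - Real.log n ≤ 1 / n := by
      rw [← Real.log_div (by positivity) hn0.ne']
      have h1 : ((n : ℝ) + 1) / n = 1 / n + 1 := by field_simp; ring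
      rw [h1]
      have := Real.log_le_sub_one_of_pos (by positivity : (0 : ℝ) < 1 / n + 1)
      linarith
    have hmono : Real.log n / S.h ≤ Real.log (n + 1) / S.h := by
      apply div_le_div_of_nonneg_right _ hh.le
      exact Real.log_le_log hn0 (by linarith)
    have hsub : (S.fl (fun t => E (S.n t))).filter (fun t => S.n t = n) ⊆
        Ico ⌈Real.log n / S.h⌉ ⌈Real.log (n + 1) / S.h⌉ := by
      intro t ht
      rw [mem_filter] at ht
      have h1 := ht.2
      unfold Par.n at h1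
      rw [Nat.floor_eq_iff (Par.x_pos t).le] at h1
      obtain ⟨h1, h2⟩ := h1
      rw [mem_Ico]
      constructor
      · rw [Int.ceil_le, div_le_iff₀ hh]
        have h3 := Real.log_le_log hn0 h1
        unfold Par.x at h3
        rw [Real.log_exp] at h3
        linarith
      · rw [Int.lt_ceil, lt_div_iff₀ hh]
        have h3 := Real.log_lt_log (Par.x_pos t) h2
        unfold Par.x at h3
        rw [Real.log_exp] at h3
        linarith
    have hcard := card_le_card hsub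
    rw [Int.card_Ico] at hcard
    have hle : ⌈Real.log n / S.h⌉ ≤ ⌈Real.log (n + 1) / S.h⌉ := Int.ceil_le_ceil hmono
    have hc2 : (((⌈Real.log (n + 1) / S.h⌉ - ⌈Real.log n / S.h⌉).toNat : ℕ) : ℝ) =
        (⌈Real.log (n + 1) / S.h⌉ : ℝ) - ⌈Real.log n / S.h⌉ := by
      have h5 : (((⌈Real.log (n + 1) / S.h⌉ - ⌈Real.log n / S.h⌉).toNat : ℕ) : ℤ) =
          ⌈Real.log (n + 1) / S.h⌉ - ⌈Real.log n / S.h⌉ := Int.toNat_of_nonneg (by omega)
      have h6 := congrArg (fun z : ℤ => (z : ℝ)) h5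
      push_cast at h6
      exact h6
    have hcard' : (((S.fl (fun t => E (S.n t))).filter (fun t => S.n t = n)).card : ℝ) ≤
        (⌈Real.log (n + 1) / S.h⌉ : ℝ) - ⌈Real.log n / S.h⌉ := by
      rw [← hc2]
      exact_mod_cast hcard
    have h7 := Int.ceil_lt_add_one (Real.log (n + 1) / S.h)
    have h8 := Int.le_ceil (Real.log n / S.h)
    have h9 : Real.log (n + 1) / S.h - Real.log n / S.h ≤ 1 / S.h * (1 / n) := by
      rw [← sub_div, div_le_iff₀ hh]
      have : 1 / S.h * (1 / (n : ℝ)) * S.h = 1 / n := by field_simp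
      rw [this]
      exact hlog
    linarith
  have hsum := card_eq_sum_card_fiberwise hmaps
  have hnb : (S.n S.b : ℝ) ≤ S.X := (Nat.floor_le (Par.x_pos _).le).trans hS.hb
  have hcount : (((Icc (S.n S.a) (S.n S.b)).filter E).card : ℝ) ≤ S.X := by
    have h1 : ((Icc (S.n S.a) (S.n S.b)).filter E).card ≤ S.n S.b := by
      refine (card_filter_le _ _).trans ?_
      rw [Nat.card_Icc]
      omega
    exact le_trans (by exact_mod_cast h1) hnb
  calc S.cnt (fun t => E (S.n t))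
      = ∑ n ∈ (Icc (S.n S.a) (S.n S.b)).filter E,
        (((S.fl (fun t => E (S.n t))).filter (fun t => S.n t = n)).card : ℝ) := by
        unfold Par.cnt
        rw [hsum]
        push_cast
        rfl
    _ ≤ ∑ n ∈ (Icc (S.n S.a) (S.n S.b)).filter E, (1 / S.h * (1 / (n : ℝ)) + 1) :=
        sum_le_sum hfib
    _ = 1 / S.h * ∑ n ∈ (Icc (S.n S.a) (S.n S.b)).filter E, 1 / (n : ℝ) +
        (((Icc (S.n S.a) (S.n S.b)).filter E).card : ℝ) := by
        rw [sum_add_distrib, mul_sum, sum_const, nsmul_eq_mul, mul_one]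
    _ ≤ _ := by linarith

/-- the numerical inequality for the exponential function -/
lemma one_sub_exp_ge {z : ℝ} (h0 : 0 ≤ z) (h1 : z ≤ 1) : z / 2 ≤ 1 - Real.exp (-z) := by
  have h2 : 1 + z ≤ Real.exp z := by
    have := Real.add_one_le_exp z
    linarith
  have h3 : Real.exp (-z) ≤ 1 / (1 + z) := by
    rw [Real.exp_neg, ← one_div]
    exact one_div_le_one_div_of_le (by linarith) h2
  have h4 : z / 2 ≤ 1 - 1 / (1 + z) := by
    have : 1 - 1 / (1 + z) = z / (1 + z) := by field_simp; ring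
    rw [this]
    apply div_le_div_of_nonneg_left h0 (by linarith) (by linarith)
  linarith

theorem pf_STP (hSIZ : T_SIZ) : T_STP := by
  intro K hK1
  obtain ⟨X₀, hX₀⟩ := hSIZ
  refine ⟨X₀, ?_⟩
  intro S ε₁ κ κ' T k θ hS hSK hX hε0 hε1 hκ hκ' hk hHH ⟨z, hz⟩
  obtain ⟨hL, -, -, -, -, -, -, -, -, -, -, hN, -⟩ := hX₀ S hS hX
  have hh := hS.hh
  have hr := hS.hr0
  set v : ℤ := 2 ^ k with hv
  have hv2 : (2 : ℤ) ^ (k + 1) = v + v := by rw [hv, pow_succ]; ring
  have hvr : ((v : ℤ) : ℝ) = 2 ^ k := by rw [hv]; push_cast; rfl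
  have hvr2 : (2 : ℝ) ^ (k + 1) = 2 ^ k + 2 ^ k := by rw [pow_succ]; ring
  have hvh0 : 0 < (2 : ℝ) ^ k * S.h := by positivity
  have hvh1 : 2 ^ (k + 1) * S.h ≤ Real.log 2 := by
    rw [← hS.hJ, mul_comm]
    apply mul_le_mul_of_nonneg_left _ hh.le
    exact pow_le_pow_right₀ (by norm_num) (by omega)
  have hlog2 : Real.log 2 ≤ 1 := by linarith [Real.log_two_lt_d9]
  -- the property of `HH` at `t`
  set G : ℤ → Prop := fun t => t + 2 ^ k ∈ S.I ∧
    nd (θ (t + 2 ^ k) - θ t - T * (Real.exp (-(2 ^ k * S.h)) - 1) / S.x t) ≤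
      ε₁ / (S.rho * S.x t) with hG
  have hG1 : S.cnt (fun t => ¬ G t) ≤ κ * S.N := hHH
  have hG2 : S.cnt (fun t => t + v ∈ S.I ∧ ¬ G (t + v)) ≤ κ * S.N :=
    (Par.cnt_shift (fun t => ¬ G t) v).trans hG1
  -- the difference along two steps
  set δ : ℤ → ℝ := fun t => θ (t + 2 ^ (k + 1)) - θ t -
    T * (Real.exp (-(2 ^ (k + 1) * S.h)) - 1) / S.x t with hδ
  have hF : ∀ t, F2 S ε₁ θ (k + 1) T t = Phi (S.rho * S.x t / ε₁ * sr (δ t)) := fun t => rfl
  set y : ℤ → ℝ := fun t => S.rho * S.x t / ε₁ * sr (δ t) with hy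
  have hre : ∀ t, ‖F2 S ε₁ θ (k + 1) T t - z‖ ≤ 1 / 4 → |min |y t| 4 - z.re| ≤ 1 / 4 := by
    intro t ht
    have h1 := Complex.abs_re_le_norm (F2 S ε₁ θ (k + 1) T t - z)
    rw [Complex.sub_re, hF] at h1
    exact h1.trans (by rw [← hF]; exact ht)
  have him : ∀ t, ‖F2 S ε₁ θ (k + 1) T t - z‖ ≤ 1 / 4 → |psi (y t) - z.im| ≤ 1 / 4 := by
    intro t ht
    have h1 := Complex.abs_im_le_norm (F2 S ε₁ θ (k + 1) T t - z)
    rw [Complex.sub_im, hF] at h1
    exact h1.trans (by rw [← hF]; exact ht)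
  -- a good point
  obtain ⟨t₀, ht₀, hbad⟩ := Par.exists_not (S := S)
    (E := fun t => (¬ G t ∨ (t + v ∈ S.I ∧ ¬ G (t + v))) ∨
      1 / 4 < ‖F2 S ε₁ θ (k + 1) T t - z‖) hN.le (by
      have h1 := Par.cnt_or (S := S) (fun t => ¬ G t ∨ (t + v ∈ S.I ∧ ¬ G (t + v)))
        (fun t => 1 / 4 < ‖F2 S ε₁ θ (k + 1) T t - z‖)
      have h2 := Par.cnt_or (S := S) (fun t => ¬ G t) (fun t => t + v ∈ S.I ∧ ¬ G (t + v))
      have h3 : κ * S.N ≤ 1 / 8 * S.N := mul_le_mul_of_nonneg_right hκ hN.le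
      have h4 : κ' * S.N ≤ 1 / 8 * S.N := mul_le_mul_of_nonneg_right hκ' hN.le
      linarith)
  rw [not_or, not_or, not_not, not_lt] at hbad
  obtain ⟨⟨hg1, hg2⟩, hg3⟩ := hbad
  have hg1' : t₀ + v ∈ S.I := hg1.1
  have hg2' : G (t₀ + v) := by
    by_contra h
    exact hg2 ⟨hg1', h⟩
  have hx0 := Par.x_pos (S := S) t₀
  have hy0 : |y t₀| ≤ 2 := by
    have hsplit : δ t₀ = (θ (t₀ + v + v) - θ (t₀ + v) -
        T * (Real.exp (-(2 ^ k * S.h)) - 1) / S.x (t₀ + v)) +
        (θ (t₀ + v) - θ t₀ - T * (Real.exp (-(2 ^ k * S.h)) - 1) / S.x t₀) := by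
      rw [hδ]
      simp only
      rw [hv2, ← add_assoc, Par.x_add, hvr, hvr2]
      have e1 : Real.exp (-((2 ^ k + 2 ^ k) * S.h)) =
          Real.exp (-(2 ^ k * S.h)) * Real.exp (-(2 ^ k * S.h)) := by
        rw [← Real.exp_add]; congr 1; ring
      have e2 : Real.exp (S.h * 2 ^ k) = (Real.exp (-(2 ^ k * S.h)))⁻¹ := by
        rw [← Real.exp_neg]; congr 1; ring
      rw [e1, e2]
      have h3 := Real.exp_pos (-(2 ^ k * S.h))
      field_simp
      ring
    have hnd : nd (δ t₀) ≤ 2 * (ε₁ / (S.rho * S.x t₀)) := by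
      rw [hsplit]
      refine (nd_add_le _ _).trans ?_
      have h1 := hg2'.2
      have h2 := hg1.2
      have h3 : ε₁ / (S.rho * S.x (t₀ + v)) ≤ ε₁ / (S.rho * S.x t₀) := by
        apply div_le_div_of_nonneg_left hε0.le (by positivity)
        apply mul_le_mul_of_nonneg_left _ hr.le
        apply Par.x_mono hh
        have : (0 : ℤ) ≤ v := by rw [hv]; positivity
        omega
      have h1' : nd (θ (t₀ + v + v) - θ (t₀ + v) -
        T * (Real.exp (-(2 ^ k * S.h)) - 1) / S.x (t₀ + v)) ≤ ε₁ / (S.rho * S.x (t₀ + v)) := h1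
      have h2' : nd (θ (t₀ + v) - θ t₀ - T * (Real.exp (-(2 ^ k * S.h)) - 1) / S.x t₀) ≤
        ε₁ / (S.rho * S.x t₀) := h2
      linarith
    rw [hy]
    simp only
    rw [abs_mul, abs_sr, abs_of_pos (by positivity)]
    calc S.rho * S.x t₀ / ε₁ * nd (δ t₀) ≤
          S.rho * S.x t₀ / ε₁ * (2 * (ε₁ / (S.rho * S.x t₀))) :=
          mul_le_mul_of_nonneg_left hnd (by positivity)
      _ = 2 := by field_simp
  have hzre : z.re ≤ 9 / 4 := by
    have h1 := hre t₀ hg3
    have h2 : min |y t₀| 4 ≤ 2 := (min_le_left _ _).trans hy0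
    rw [abs_le] at h1
    linarith [h1.1]
  -- all good points
  have hall : ∀ t, ‖F2 S ε₁ θ (k + 1) T t - z‖ ≤ 1 / 4 → |y t| ≤ 5 / 2 ∧
      |y t - z.im| ≤ 1 / 4 := by
    intro t ht
    have h1 := hre t ht
    rw [abs_le] at h1
    have h2 : min |y t| 4 ≤ 5 / 2 := by linarith [h1.2]
    have h3 : |y t| ≤ 5 / 2 := by
      rcases min_le_iff.1 h2 with h | h
      · exact h
      · norm_num at h
    refine ⟨h3, ?_⟩
    have h4 := him t ht
    rwa [psi_eq (by linarith)] at h4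
  have hzim : |z.im| ≤ 11 / 4 := by
    obtain ⟨h1, h2⟩ := hall t₀ hg3
    have h3 : |z.im| ≤ |y t₀| + |y t₀ - z.im| := by
      calc |z.im| = |y t₀ - (y t₀ - z.im)| := by congr 1; ring
        _ ≤ _ := abs_sub _ _
    linarith
  set w : ℝ := 2 ^ (k + 1) * S.h with hw
  have hw0 : 0 < w := by positivity
  have hw1 : w ≤ 1 := hvh1.trans hlog2
  have hexp := one_sub_exp_ge hw0.le hw1
  have hD : 0 < 1 - Real.exp (-w) := by linarith
  refine ⟨T + z.im * ε₁ / (S.rho * (Real.exp (-w) - 1)), ?_, ?_⟩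
  · have h1 : T + z.im * ε₁ / (S.rho * (Real.exp (-w) - 1)) - T =
        -(z.im * (ε₁ / (S.rho * (1 - Real.exp (-w))))) := by
      have : S.rho * (Real.exp (-w) - 1) = -(S.rho * (1 - Real.exp (-w))) := by ring
      rw [this, div_neg]
      ring
    rw [h1, abs_neg, abs_mul, abs_of_pos (by positivity : 0 < ε₁ / (S.rho * (1 - Real.exp (-w))))]
    have h2 : ε₁ / (S.rho * (1 - Real.exp (-w))) ≤ ε₁ / (S.rho * (2 ^ k * S.h)) := by
      apply div_le_div_of_nonneg_left hε0.le (by positivity)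
      apply mul_le_mul_of_nonneg_left _ hr.le
      have : w / 2 = 2 ^ k * S.h := by rw [hw, pow_succ]; ring
      linarith
    have h3 : 0 < ε₁ / (S.rho * (2 ^ k * S.h)) := by positivity
    calc |z.im| * (ε₁ / (S.rho * (1 - Real.exp (-w))))
        ≤ 11 / 4 * (ε₁ / (S.rho * (2 ^ k * S.h))) :=
          mul_le_mul hzim h2 (by positivity) (by norm_num)
      _ ≤ 4 * (ε₁ / (S.rho * (2 ^ k * S.h))) := by linarith
      _ = _ := by ring
  · unfold HH
    have hout : S.cnt (fun t => t + 2 ^ (k + 1) ∉ S.I) ≤ 1 / S.L * S.N := by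
      have h1 := Par.cnt_out (S := S) (2 ^ (k + 1))
      refine h1.trans ?_
      have h2 : |(((2 : ℤ) ^ (k + 1) : ℤ) : ℝ)| = 2 ^ (k + 1) := by
        push_cast
        exact abs_of_pos (by positivity)
      rw [h2]
      have h3 : (2 : ℝ) ^ (k + 1) ≤ 1 / S.h := by
        rw [le_div_iff₀ hh]
        exact hw1
      have h4 : 1 / S.h ≤ 1 / S.L * S.N := by
        have hL0 : 0 < S.L := by linarith
        rw [one_div_mul_eq_div, div_le_div_iff₀ hh hL0]
        have h5 := hS.hI1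
        have hK' : (1 : ℝ) ≤ S.K := by exact_mod_cast hS.hK
        nlinarith
      exact h3.trans h4
    have hmain : S.cnt (fun t => ¬ (t + 2 ^ (k + 1) ∈ S.I ∧
        nd (θ (t + 2 ^ (k + 1)) - θ t - (T + z.im * ε₁ / (S.rho * (Real.exp (-w) - 1))) *
          (Real.exp (-(2 ^ (k + 1) * S.h)) - 1) / S.x t) ≤ ε₁ / (S.rho * S.x t))) ≤
        S.cnt (fun t => t + 2 ^ (k + 1) ∉ S.I) +
          S.cnt (fun t => 1 / 4 < ‖F2 S ε₁ θ (k + 1) T t - z‖) := by
      apply Par.cnt_le_add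
      intro t _ hbt
      by_cases h1 : t + 2 ^ (k + 1) ∈ S.I
      · right
        by_contra h2
        rw [not_lt] at h2
        apply hbt
        refine ⟨h1, ?_⟩
        obtain ⟨-, h3⟩ := hall t h2
        have hxt := Par.x_pos (S := S) t
        rw [← hw]
        have hne : Real.exp (-w) - 1 ≠ 0 := by
          intro h; linarith
        have h4 : θ (t + 2 ^ (k + 1)) - θ t -
            (T + z.im * ε₁ / (S.rho * (Real.exp (-w) - 1))) * (Real.exp (-w) - 1) / S.x t =
            δ t - z.im * (ε₁ / (S.rho * S.x t)) := by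
          rw [hδ]
          simp only
          field_simp
          ring
        rw [h4]
        have h5 := nd_le (δ t - z.im * (ε₁ / (S.rho * S.x t))) (round (δ t))
        have h6 : δ t - z.im * (ε₁ / (S.rho * S.x t)) - (round (δ t) : ℝ) =
            (ε₁ / (S.rho * S.x t)) * (y t - z.im) := by
          rw [hy]
          simp only
          unfold sr
          field_simp
          ring
        rw [h6, abs_mul, abs_of_pos (by positivity : 0 < ε₁ / (S.rho * S.x t))] at h5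
        have h7 : 0 < ε₁ / (S.rho * S.x t) := by positivity
        nlinarith
      · left; exact h1
    refine le_trans hmain ?_
    rw [add_mul]
    linarith

end Pool.Agent.H78.GX.H91.N4D
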